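import Pool.Agent.H11.T4.Stmts

/-!
# Module CLS of the project T4
-/

open Finset

namespace Pool.T4

theorem cls : CLSStmt := by
  intro n K s hs p q γ γ' h h'
  have key : ∀ (a : ℝ) (_ : 0 ≤ a) (_ : a ≤ 1) (t : unitInterval),
      (fun i => (1 - a) * (γ t).1 i + a * (γ' t).1 i) ∈ Geom K := by
    intro a ha0 ha1 t
    have h1 : (0 : ℝ) ≤ 1 - a := by linarith
    have hnn : ∀ i, 0 ≤ (1 - a) * (γ t).1 i + a * (γ' t).1 i := by
      intro i
      have := (γ t).2.1 i
      have := (γ' t).2.1 i
      positivity
    have hsum : ∑ i, ((1 - a) * (γ t).1 i + a * (γ' t).1 i) = 1 := by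
      rw [Finset.sum_add_distrib, ← Finset.mul_sum, ← Finset.mul_sum, (γ t).2.2.1, (γ' t).2.2.1]
      ring
    refine ⟨hnn, hsum, ?_⟩
    have hle : (univ.filter fun i => (1 - a) * (γ t).1 i + a * (γ' t).1 i ≠ 0) ≤ s := by
      intro i hi
      by_contra hc
      rw [Finset.mem_filter] at hi
      apply hi.2
      rw [h t i hc, h' t i hc]
      ring
    have hne : (univ.filter fun i => (1 - a) * (γ t).1 i + a * (γ' t).1 i ≠ 0).Nonempty := by
      by_contra hc
      rw [Finset.not_nonempty_iff_eq_empty, Finset.filter_eq_empty_iff] at hc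
      have h0 : ∑ i, ((1 - a) * (γ t).1 i + a * (γ' t).1 i) = 0 := by
        apply Finset.sum_eq_zero
        intro i hi
        have := hc hi
        push Not at this
        exact this
      rw [hsum] at h0
      exact one_ne_zero h0
    exact (K.isRelLowerSet_faces hs).2 hle hne
  refine ⟨⟨⟨⟨fun x => ⟨fun i => (1 - x.1.1) * (γ x.2).1 i + x.1.1 * (γ' x.2).1 i,
    key x.1.1 x.1.2.1 x.1.2.2 x.2⟩, ?_⟩, ?_, ?_⟩, ?_⟩⟩
  · refine Continuous.subtype_mk (continuous_pi fun i => ?_) _
    have c1 : Continuous fun x : unitInterval × unitInterval => (γ x.2).1 i :=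
      (continuous_apply i).comp (continuous_subtype_val.comp (γ.continuous.comp continuous_snd))
    have c2 : Continuous fun x : unitInterval × unitInterval => (γ' x.2).1 i :=
      (continuous_apply i).comp (continuous_subtype_val.comp (γ'.continuous.comp continuous_snd))
    have c3 : Continuous fun x : unitInterval × unitInterval => (x.1.1 : ℝ) :=
      continuous_subtype_val.comp continuous_fst
    exact ((continuous_const.sub c3).mul c1).add (c3.mul c2)
  · intro t
    apply Subtype.ext
    funext i
    simp
  · intro t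
    apply Subtype.ext
    funext i
    simp
  · intro a t ht
    apply Subtype.ext
    funext i
    rcases ht with ht | ht
    · subst ht
      simp
      ring
    · rw [Set.mem_singleton_iff] at ht
      subst ht
      simp
      ring

end Pool.T4
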